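import Pool.Agent.NL.StmtsA

/-!
# Squad NLO, row CPY (helper56): a copy of a finite set of points
-/

set_option autoImplicit false

open MeasureTheory Filter Topology

noncomputable section

namespace Pool.Agent.NL.H56

open Pool.Agent.NL

theorem l1_eq (b : ℝ →₀ ℝ) (S : Finset ℝ) (h : b.support ⊆ S) : l1 b = ∑ x ∈ S, |b x| :=
  Finsupp.sum_of_support_subset b h _ (fun _ _ => abs_zero)

theorem l1_nonneg (b : ℝ →₀ ℝ) : 0 ≤ l1 b := by
  rw [l1_eq b _ subset_rfl]
  exact Finset.sum_nonneg fun _ _ => abs_nonneg _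

/-- the coefficient vector after the move of the part `τ` of `b s` to `p` -/
theorem l1_move (b : ℝ →₀ ℝ) (s p τ : ℝ) (h0 : 0 ≤ τ) (h1 : τ ≤ 1) :
    l1 (b + (τ * b s) • (Finsupp.single p (1 : ℝ) - Finsupp.single s 1)) ≤ l1 b := by
  classical
  by_cases hps : p = s
  · rw [hps, sub_self, smul_zero, add_zero]
  set b' : ℝ →₀ ℝ := b + (τ * b s) • (Finsupp.single p (1 : ℝ) - Finsupp.single s 1) with hb'
  set S : Finset ℝ := b.support ∪ {s, p} with hS
  have hsS : s ∈ S := by rw [hS]; simp
  have hpS : p ∈ S := by rw [hS]; simp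
  have hval : ∀ x, b' x = b x + τ * b s * ((if p = x then 1 else 0) - (if s = x then 1 else 0)) := by
    intro x
    rw [hb', Finsupp.add_apply, Finsupp.smul_apply, Finsupp.sub_apply, Finsupp.single_apply,
      Finsupp.single_apply, smul_eq_mul]
  have hsup : b'.support ⊆ S := by
    intro x hx
    by_contra hxS
    rw [Finsupp.mem_support_iff] at hx
    apply hx
    have hx1 : b x = 0 := by
      by_contra hb
      exact hxS (by rw [hS]; exact Finset.mem_union_left _ (Finsupp.mem_support_iff.2 hb))
    have hx2 : p ≠ x := by rintro rfl; exact hxS hpS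
    have hx3 : s ≠ x := by rintro rfl; exact hxS hsS
    rw [hval, hx1, if_neg hx2, if_neg hx3]
    ring
  rw [l1_eq b' S hsup, l1_eq b S (by rw [hS]; exact Finset.subset_union_left)]
  have hpt : ∀ x ∈ S, |b' x| ≤ |b x| + τ * |b s| * ((if p = x then (1 : ℝ) else 0) - (if s = x then 1 else 0)) := by
    intro x _
    rw [hval]
    by_cases hpx : p = x
    · have hsx : s ≠ x := by rintro rfl; exact hps hpx
      rw [if_pos hpx, if_neg hsx, sub_zero, mul_one, mul_one]
      refine (abs_add_le _ _).trans ?_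
      rw [abs_mul, abs_of_nonneg h0]
    · rw [if_neg hpx]
      by_cases hsx : s = x
      · rw [if_pos hsx, ← hsx]
        have h2 : b s + τ * b s * (0 - 1) = (1 - τ) * b s := by ring
        rw [h2, abs_mul, abs_of_nonneg (by linarith)]
        apply le_of_eq
        ring
      · rw [if_neg hsx, sub_self, mul_zero, mul_zero, add_zero, add_zero]
  refine (Finset.sum_le_sum hpt).trans ?_
  rw [Finset.sum_add_distrib, ← Finset.mul_sum, Finset.sum_sub_distrib, Finset.sum_ite_eq,
    Finset.sum_ite_eq, if_pos hpS, if_pos hsS, sub_self, mul_zero, add_zero]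

theorem V_move (G : ℝ → Z) (b : ℝ →₀ ℝ) (s p c : ℝ) :
    V G (b + c • (Finsupp.single p (1 : ℝ) - Finsupp.single s 1)) =
      V G b + c • (G p - G s) := by
  unfold V
  rw [map_add, map_smul, map_sub, Finsupp.linearCombination_single,
    Finsupp.linearCombination_single, one_smul, one_smul]

/-- the moves of the points of `K` -/
theorem batch (T : Finset ℝ) (φ t : ℝ → ℝ) (b : ℝ →₀ ℝ) (ht : ∀ s, 0 ≤ t s ∧ t s ≤ 1)
    (K : Finset ℝ) : K ⊆ T → (∀ s ∈ K, φ s ∉ T) →
    l1 (b + ∑ s ∈ K, (t s * b s) • (Finsupp.single (φ s) (1 : ℝ) - Finsupp.single s 1)) ≤ l1 b ∧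
    ∀ x ∈ T, x ∉ K →
      (b + ∑ s ∈ K, (t s * b s) • (Finsupp.single (φ s) (1 : ℝ) - Finsupp.single s 1)) x = b x := by
  classical
  induction K using Finset.induction_on with
  | empty =>
    intro _ _
    rw [Finset.sum_empty, add_zero]
    exact ⟨le_rfl, fun _ _ _ => rfl⟩
  | insert s K hs ih =>
    intro hK hφ
    obtain ⟨ih1, ih2⟩ := ih (fun x hx => hK (Finset.mem_insert_of_mem hx))
      (fun x hx => hφ x (Finset.mem_insert_of_mem hx))
    have hsT : s ∈ T := hK (Finset.mem_insert_self _ _)
    have hφs : φ s ∉ T := hφ s (Finset.mem_insert_self _ _)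
    rw [Finset.sum_insert hs, add_comm (_ • _), ← add_assoc]
    set b₁ : ℝ →₀ ℝ := b + ∑ s ∈ K, (t s * b s) • (Finsupp.single (φ s) (1 : ℝ) -
      Finsupp.single s 1) with hb₁
    have h1 : b₁ s = b s := ih2 s hsT hs
    constructor
    · rw [← h1]
      exact (l1_move b₁ s (φ s) (t s) (ht s).1 (ht s).2).trans ih1
    · intro x hx hxK
      rw [Finset.mem_insert, not_or] at hxK
      have h2 : φ s ≠ x := by rintro rfl; exact hφs hx
      have h3 : s ≠ x := fun h => hxK.1 h.symm
      rw [Finsupp.add_apply, ih2 x hx hxK.2, Finsupp.smul_apply, Finsupp.sub_apply,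
        Finsupp.single_apply, Finsupp.single_apply, if_neg h2,
        if_neg h3, sub_zero, smul_zero, add_zero]

theorem V_batch (G : ℝ → Z) (φ c : ℝ → ℝ) (b : ℝ →₀ ℝ) (K : Finset ℝ) :
    V G (b + ∑ s ∈ K, c s • (Finsupp.single (φ s) (1 : ℝ) - Finsupp.single s 1)) =
      V G b + ∑ s ∈ K, c s • (G (φ s) - G s) := by
  unfold V
  rw [map_add, map_sum]
  congr 1
  refine Finset.sum_congr rfl fun s _ => ?_
  rw [map_smul, map_sub, Finsupp.linearCombination_single,
    Finsupp.linearCombination_single, one_smul, one_smul]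

theorem batch_support (T : Finset ℝ) (φ c : ℝ → ℝ) (b : ℝ →₀ ℝ) (hb : b.support ⊆ T)
    (K : Finset ℝ) (hK : K ⊆ T) :
    (b + ∑ s ∈ K, c s • (Finsupp.single (φ s) (1 : ℝ) - Finsupp.single s 1)).support ⊆
      T ∪ K.image φ := by
  classical
  intro x hx
  by_contra hxS
  rw [Finset.mem_union, not_or] at hxS
  rw [Finsupp.mem_support_iff] at hx
  apply hx
  have h1 : b x = 0 := by
    by_contra h
    exact hxS.1 (hb (Finsupp.mem_support_iff.2 h))
  rw [Finsupp.add_apply, h1, zero_add, Finsupp.finsetSum_apply]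
  refine Finset.sum_eq_zero fun s hs => ?_
  have h2 : φ s ≠ x := fun h => hxS.2 (Finset.mem_image.2 ⟨s, hs, h⟩)
  have h3 : s ≠ x := by rintro rfl; exact hxS.1 (hK hs)
  rw [Finsupp.smul_apply, Finsupp.sub_apply, Finsupp.single_apply, Finsupp.single_apply,
    if_neg h2, if_neg h3, sub_zero, smul_zero]

theorem cpy (gpt : GptStmt) (dnb : DnbStmt) : CpyStmt := by
  classical
  intro X _ _ f F G Ψ hC a T hT K
  induction K using Finset.induction_on with
  | empty =>
    intro _ Φ E _ ε hε
    refine ⟨id, by simp, by simp, by simpa using hT, by simp, ?_, ?_⟩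
    · intro U _ hU
      simpa using hU
    · intro b _ y _ t _
      rw [Finset.sum_empty, add_zero]
      have h1 : 0 ≤ ε * (l1 b + ‖y‖) := mul_nonneg hε.le (add_nonneg (l1_nonneg b) (norm_nonneg _))
      linarith
  | insert s K hs ih =>
    intro hK Φ E _ ε hε
    have hKT : K ⊆ T := fun x hx => hK (Finset.mem_insert_of_mem hx)
    have hsT : s ∈ T := hK (Finset.mem_insert_self _ _)
    obtain ⟨φ₀, i1, i2, i3, i4, i5, i6⟩ := ih hKT Φ E (ε / 2) (by positivity)
    have := dnb.1 s
    obtain ⟨x, hxT, hxG, hx⟩ := (gpt X f F G Ψ hC a (T ∪ K.image φ₀) i3 s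
      (Finset.mem_union_left _ hsT) Φ E (ε / 2) (by positivity)).exists
    have hφs : Function.update φ₀ s x s = x := Function.update_self _ _ _
    have hφK : ∀ s' ∈ K, Function.update φ₀ s x s' = φ₀ s' := by
      intro s' hs'
      have h : s' ≠ s := by rintro rfl; exact hs hs'
      exact Function.update_of_ne h _ _
    have himK : ∀ L ⊆ K, L.image (Function.update φ₀ s x) = L.image φ₀ := by
      intro L hL
      exact Finset.image_congr fun s' hs' => hφK s' (hL hs')
    refine ⟨Function.update φ₀ s x, ?_, ?_, ?_, ?_, ?_, ?_⟩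
    · intro u hu v hv huv
      rw [Finset.mem_coe, Finset.mem_insert] at hu hv
      rcases hu with rfl | hu
      · rcases hv with rfl | hv
        · rfl
        · rw [hφs, hφK v hv] at huv
          exact absurd (Finset.mem_union_right _ (Finset.mem_image.2 ⟨v, hv, huv.symm⟩)) hxT
      · rcases hv with rfl | hv
        · rw [hφs, hφK u hu] at huv
          exact absurd (Finset.mem_union_right _ (Finset.mem_image.2 ⟨u, hu, huv⟩)) hxT
        · rw [hφK u hu, hφK v hv] at huv
          exact i1 hu hv huv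
    · intro u hu
      rw [Finset.mem_insert] at hu
      rcases hu with rfl | hu
      · rw [hφs]
        exact fun h => hxT (Finset.mem_union_left _ h)
      · rw [hφK u hu]
        exact i2 u hu
    · rw [Finset.image_insert, hφs, himK K subset_rfl, Finset.union_insert]
      exact hxG
    · intro u hu k hk
      rw [Finset.mem_insert] at hu
      rcases hu with rfl | hu
      · rw [hφs]
        exact (hx.co k hk).trans (by linarith)
      · rw [hφK u hu]
        exact (i4 u hu k hk).trans (by linarith)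
    · intro U hU hUr
      have hU1 := i5 U hU hUr
      by_cases hsU : s ∈ U
      · have h1 := hx.nr (U ∪ (U ∩ K).image φ₀)
          (Finset.union_subset_union hU (Finset.image_subset_image Finset.inter_subset_right))
          (Finset.mem_union_left _ hsU) hU1
        rw [Finset.inter_insert_of_mem hsU, Finset.image_insert, hφs,
          himK _ Finset.inter_subset_right, Finset.union_insert]
        exact h1
      · rw [Finset.inter_insert_of_notMem hsU, himK _ Finset.inter_subset_right]
        exact hU1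
    · intro b hb y hy t ht
      rw [Finset.sum_insert hs, hφs]
      have h1 : ∑ s' ∈ K, (t s' * b s') • (G (Function.update φ₀ s x s') - G s') =
          ∑ s' ∈ K, (t s' * b s') • (G (φ₀ s') - G s') :=
        Finset.sum_congr rfl fun s' hs' => by rw [hφK s' hs']
      rw [h1]
      obtain ⟨h2, h3⟩ := batch T φ₀ t b ht K hKT i2
      have h4 := V_batch G φ₀ (fun s => t s * b s) b K
      have h5 := batch_support T φ₀ (fun s => t s * b s) b hb K hKT
      have h6 := i6 b hb y hy t ht
      beta_reduce at h4 h5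
      have h7 := hx.up _ h5 (t s) (ht s).1 (ht s).2 y hy
      rw [h3 s hsT hs, h4] at h7
      have h8 : V G b + ((t s * b s) • (G x - G s) + ∑ s' ∈ K, (t s' * b s') • (G (φ₀ s') - G s')) -
          Ψ y = V G b + ∑ s' ∈ K, (t s' * b s') • (G (φ₀ s') - G s') +
            (t s * b s) • (G x - G s) - Ψ y := by abel
      rw [h8]
      have h9 : ε / 2 * (l1 (b + ∑ s ∈ K, (t s * b s) • (Finsupp.single (φ₀ s) (1 : ℝ) -
          Finsupp.single s 1)) + ‖y‖) ≤ ε / 2 * (l1 b + ‖y‖) :=
        mul_le_mul_of_nonneg_left (by linarith) (by positivity)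
      have h10 : ε / 2 * (l1 b + ‖y‖) + ε / 2 * (l1 b + ‖y‖) = ε * (l1 b + ‖y‖) := by ring
      linarith

end Pool.Agent.NL.H56
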